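import Pool.Agent.Helper47.EP.Goals

/-!
# Project EP (MP_5b9a11_al): KAP (packet 13326)
-/

set_option autoImplicit false

namespace Pool.Agent.Helper39.EP.KAP

open Pool.Agent.Helper47.EP

section

variable {p : ℕ} (T : Dat p)

lemma w_swap (x y : T.K) : T.w y x = - T.w x y := by
  have h := T.alt (x + y)
  simp only [map_add, AddMonoidHom.add_apply, T.alt, zero_add, add_zero] at h
  exact (neg_eq_of_add_eq_zero_right (by rw [← h, add_comm])).symm

lemma t_comm (j k : ZMod p) (x : T.K) : T.t j (T.t k x) = T.t k (T.t j x) := by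
  rw [← T.t_add, add_comm, T.t_add]

lemma t_inj (k : ZMod p) (x : T.K) (h : T.t k x = 0) : x = 0 := by
  rw [← T.t_zero x, ← neg_add_cancel k, T.t_add, h, map_zero]

lemma phi_bij (j : ZMod p) (hj : j ≠ 0) : Function.Bijective fun x : T.K => T.t j x - x := by
  refine Finite.injective_iff_bijective.1 fun x x' h => ?_
  have h1 : T.t j x - x = T.t j x' - x' := h
  have h2 : T.t j (x - x') = x - x' := by
    rw [map_sub]
    exact sub_eq_sub_iff_sub_eq_sub.1 h1
  exact sub_eq_zero.1 (T.inj j hj _ h2)

lemma dv_spec (j : ZMod p) (hj : j ≠ 0) (y : T.K) : T.t j (dv T j y) - dv T j y = y := by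
  have h : ∃ x, T.t j x - x = y := (phi_bij T j hj).2 y
  unfold dv
  rw [dif_pos h]
  exact h.choose_spec

lemma dv_eq (j : ZMod p) (hj : j ≠ 0) (x : T.K) : dv T j (T.t j x - x) = x :=
  (phi_bij T j hj).1 (dv_spec T j hj _)

variable {T} {R : Type} [CommRing R] (C : Chr T R)

lemma kap_zero (y : T.K) : kap C 0 y = if y = 0 then 1 else 0 := by
  unfold kap
  rw [if_pos rfl]

lemma kap_ne (j : ZMod p) (hj : j ≠ 0) (y : T.K) :
    kap C j y = -C.il * C.ψ (-(T.w (T.t j (dv T j y)) (dv T j y))) := by
  unfold kap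
  rw [if_neg hj]

lemma kap_phi (j : ZMod p) (hj : j ≠ 0) (x : T.K) :
    kap C j (T.t j x - x) = -C.il * C.ψ (-(T.w (T.t j x) x)) := by
  rw [kap_ne C j hj, dv_eq T j hj]

/-- statement (2) -/
lemma two (j : ZMod p) (s y : T.K) :
    kap C j (s - T.t j y) * C.ψ (T.w (T.t j y) (s - T.t j y)) =
      kap C j (s - y) * C.ψ (T.w (s - y) y) := by
  by_cases hj : j = 0
  · subst hj
    rw [T.t_zero, kap_zero]
    by_cases h : s - y = 0
    · have e1 : T.w y 0 = 0 := map_zero _
      have e2 : T.w 0 y = 0 := by rw [map_zero]; rfl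
      rw [h, e1, e2]
    · rw [if_neg h, zero_mul, zero_mul]
  · obtain ⟨x, hx⟩ := (phi_bij T j hj).2 (s - y)
    have hx' : T.t j x - x = s - y := hx
    have h1 : s - T.t j y = T.t j (x - y) - (x - y) := by
      rw [map_sub]
      have : s = T.t j x - x + y := by rw [hx']; abel
      rw [this]
      abel
    rw [h1, ← hx', kap_phi C j hj, kap_phi C j hj, mul_assoc, mul_assoc,
      ← AddChar.map_add_eq_mul, ← AddChar.map_add_eq_mul]
    congr 2
    have e1 := T.inv j y x
    have e2 := T.inv j y y
    have e3 := T.alt y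
    have e4 := w_swap T x y
    simp only [map_sub, AddMonoidHom.sub_apply]
    rw [e1, e2, e3, e4]
    ring

/-- statement (3) -/
lemma three (j k : ZMod p) (y : T.K) : kap C j (T.t k y) = kap C j y := by
  by_cases hj : j = 0
  · subst hj
    rw [kap_zero, kap_zero]
    by_cases h : y = 0
    · rw [h, map_zero]
    · rw [if_neg h, if_neg fun h' => h (t_inj T k y h')]
  · obtain ⟨x, hx⟩ := (phi_bij T j hj).2 y
    have hx' : T.t j x - x = y := hx
    have h1 : T.t k y = T.t j (T.t k x) - T.t k x := by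
      rw [t_comm, ← map_sub, hx']
    rw [h1, ← hx', kap_phi C j hj, kap_phi C j hj, t_comm T j k x, T.inv]

/-- statement (4) -/
lemma four (j : ZMod p) (hj : j ≠ 0) : kap C j 0 = -C.il := by
  have h : T.t j (0 : T.K) - 0 = 0 := by rw [map_zero, sub_zero]
  have h1 := kap_phi C j hj 0
  have e1 : T.w (T.t j 0) 0 = 0 := map_zero _
  rw [h, e1, neg_zero, AddChar.map_zero_eq_one, mul_one] at h1
  exact h1

/-- the convolution -/
noncomputable def ff (j k : ZMod p) (s : T.K) : R :=
  ∑ y, kap C j y * kap C k (s - y) * C.ψ (T.w y (s - y))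

/-- (*) -/
lemma star (j k : ZMod p) (s y : T.K) :
    ff C j k (s - T.t (j + k) y) * C.ψ (T.w (T.t (j + k) y) (s - T.t (j + k) y)) =
      ff C j k (s - y) * C.ψ (T.w (s - y) y) := by
  unfold ff
  rw [T.t_add, Finset.sum_mul, Finset.sum_mul]
  set Y := T.t k y with hY
  set Z := T.t j Y with hZ
  have hZZ : T.w Z Z = 0 := T.alt Z
  have hYY : T.w Y Y = 0 := T.alt Y
  have hyy : T.w y y = 0 := T.alt y
  calc ∑ x, kap C j x * kap C k (s - Z - x) * C.ψ (T.w x (s - Z - x)) * C.ψ (T.w Z (s - Z))
      = ∑ x, kap C j (x - Z) * kap C k (s - Z - (x - Z)) * C.ψ (T.w (x - Z) (s - Z - (x - Z))) *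
          C.ψ (T.w Z (s - Z)) :=
        (Equiv.sum_comp (Equiv.subRight Z) fun x => kap C j x * kap C k (s - Z - x) *
          C.ψ (T.w x (s - Z - x)) * C.ψ (T.w Z (s - Z))).symm
    _ = ∑ x, kap C j (x - Y) * kap C k (s - x) * C.ψ (T.w x (s - x) + T.w (x - Y) Y) := by
        refine Finset.sum_congr rfl fun x _ => ?_
        have h := two C j x Y
        rw [← hZ] at h
        have e1 : s - Z - (x - Z) = s - x := by abel
        have e2 : T.w (x - Z) (s - x) + T.w Z (s - Z) = T.w Z (x - Z) + T.w x (s - x) := by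
          simp only [map_sub, AddMonoidHom.sub_apply]
          ring
        rw [e1, mul_assoc, ← AddChar.map_add_eq_mul, e2, AddChar.map_add_eq_mul]
        calc kap C j (x - Z) * kap C k (s - x) * (C.ψ (T.w Z (x - Z)) * C.ψ (T.w x (s - x)))
            = (kap C j (x - Z) * C.ψ (T.w Z (x - Z))) * kap C k (s - x) *
                C.ψ (T.w x (s - x)) := by ring
          _ = _ := by
            rw [h, AddChar.map_add_eq_mul]
            ring
    _ = ∑ x, kap C j (x + Y - Y) * kap C k (s - (x + Y)) *
          C.ψ (T.w (x + Y) (s - (x + Y)) + T.w (x + Y - Y) Y) :=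
        (Equiv.sum_comp (Equiv.addRight Y) fun x => kap C j (x - Y) * kap C k (s - x) *
          C.ψ (T.w x (s - x) + T.w (x - Y) Y)).symm
    _ = ∑ x, kap C j x * kap C k (s - y - x) * C.ψ (T.w x (s - y - x)) *
          C.ψ (T.w (s - y) y) := by
        refine Finset.sum_congr rfl fun x _ => ?_
        have h := two C k (s - x) y
        rw [← hY] at h
        have e1 : x + Y - Y = x := by abel
        have e2 : s - (x + Y) = s - x - Y := by abel
        have e3 : s - y - x = s - x - y := by abel
        have e4 : T.w (x + Y) (s - x - Y) + T.w x Y = T.w Y (s - x - Y) + T.w x (s - x) := by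
          simp only [map_sub, map_add, AddMonoidHom.add_apply]
          ring
        have e5 : T.w x (s - x - y) + T.w (s - y) y = T.w (s - x - y) y + T.w x (s - x) := by
          simp only [map_sub, AddMonoidHom.sub_apply]
          ring
        rw [e1, e2, e3, e4, mul_assoc (kap C j x * kap C k (s - x - y)),
          ← AddChar.map_add_eq_mul, e5, AddChar.map_add_eq_mul, AddChar.map_add_eq_mul]
        calc kap C j x * kap C k (s - x - Y) * (C.ψ (T.w Y (s - x - Y)) * C.ψ (T.w x (s - x)))
            = kap C j x * (kap C k (s - x - Y) * C.ψ (T.w Y (s - x - Y))) *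
                C.ψ (T.w x (s - x)) := by ring
          _ = _ := by
            rw [h]
            ring

lemma psi_neg (z : ZMod T.l) : C.ψ z * C.ψ (-z) = 1 := by
  rw [← AddChar.map_add_eq_mul, add_neg_cancel, AddChar.map_zero_eq_one]

/-- (*) shifted -/
lemma star' (j k : ZMod p) (a y : T.K) :
    ff C j k (a + y - T.t (j + k) y) * C.ψ (T.w (T.t (j + k) y) (a + y - T.t (j + k) y)) =
      ff C j k a * C.ψ (T.w a y) := by
  have h := star C j k (a + y) y
  rw [add_sub_cancel_right] at h
  exact h

lemma ff_zero_left (k : ZMod p) (s : T.K) : ff C 0 k s = kap C k s := by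
  unfold ff
  rw [Finset.sum_eq_single 0]
  · have e : T.w 0 (s - 0) = 0 := by rw [map_zero]; rfl
    rw [kap_zero, if_pos rfl, e, AddChar.map_zero_eq_one, sub_zero, one_mul, mul_one]
  · intro y _ hy
    rw [kap_zero, if_neg hy, zero_mul, zero_mul]
  · intro h
    exact absurd (Finset.mem_univ _) h

lemma ff_zero_right (j : ZMod p) (s : T.K) : ff C j 0 s = kap C j s := by
  unfold ff
  rw [Finset.sum_eq_single s]
  · have e : T.w s (s - s) = 0 := by rw [sub_self, map_zero]
    rw [kap_zero, sub_self, if_pos rfl, mul_one]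
    rw [sub_self] at e
    rw [e, AddChar.map_zero_eq_one, mul_one]
  · intro y _ hy
    rw [kap_zero, if_neg fun h => hy (sub_eq_zero.1 h).symm, mul_zero, zero_mul]
  · intro h
    exact absurd (Finset.mem_univ _) h

/-- the value at `0` -/
lemma ff_at_zero (j k : ZMod p) (hj : j ≠ 0) (hk : k ≠ 0) :
    ff C j k 0 = if j + k = 0 then 1 else -C.il := by
  have hil := C.il_mul
  have h1 : ff C j k 0 = ∑ x, C.il ^ 2 *
      C.ψ (-(T.w (T.t j x) x + T.w (T.t k (dv T k (-(T.t j x - x)))) (dv T k (-(T.t j x - x))))) := by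
    unfold ff
    rw [← Equiv.sum_comp (Equiv.ofBijective _ (phi_bij T j hj))]
    refine Finset.sum_congr rfl fun x _ => ?_
    have e0 : Equiv.ofBijective _ (phi_bij T j hj) x = T.t j x - x := rfl
    rw [e0, zero_sub]
    have e1 : T.w (T.t j x - x) (-(T.t j x - x)) = 0 := by
      rw [map_neg, T.alt, neg_zero]
    rw [e1, AddChar.map_zero_eq_one, mul_one, kap_phi C j hj, kap_ne C k hk, neg_add,
      AddChar.map_add_eq_mul]
    ring
  rw [h1]
  obtain ⟨g1, g2⟩ := T.gauss j k hj hk (fun x => dv T k (-(T.t j x - x)))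
    (fun x => dv_spec T k hk _)
  split_ifs with hjk
  · rw [Finset.sum_congr rfl fun x _ => by rw [g1 hjk x, neg_zero, AddChar.map_zero_eq_one],
      Finset.sum_const, Finset.card_univ, T.card, nsmul_eq_mul, mul_one, Nat.cast_pow,
      ← mul_pow, mul_comm, hil, one_pow]
  · rw [← Finset.mul_sum]
    have h2 : ∑ x : T.K, C.ψ (-(T.w (T.t j x) x + T.w (T.t k (dv T k (-(T.t j x - x))))
        (dv T k (-(T.t j x - x))))) = -(T.l : R) := by
      rw [← Finset.sum_fiberwise' Finset.univ (fun x : T.K => T.w (T.t j x) x +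
        T.w (T.t k (dv T k (-(T.t j x - x)))) (dv T k (-(T.t j x - x)))) fun z => C.ψ (-z)]
      have h3 : ∀ z : ZMod T.l, ∑ _x ∈ Finset.univ.filter (fun x : T.K => T.w (T.t j x) x +
          T.w (T.t k (dv T k (-(T.t j x - x)))) (dv T k (-(T.t j x - x))) = z), C.ψ (-z) =
          ((T.l : R) + 1) * C.ψ (-z) - if z = 0 then (T.l : R) else 0 := by
        intro z
        rw [Finset.sum_const, g2 hjk z, nsmul_eq_mul]
        split_ifs with hz
        · rw [hz, neg_zero, AddChar.map_zero_eq_one]
          push_cast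
          ring
        · push_cast
          ring
      rw [Finset.sum_congr rfl fun z _ => h3 z, Finset.sum_sub_distrib, ← Finset.mul_sum]
      have h4 : ∑ z : ZMod T.l, C.ψ (-z) = 0 := by
        have := C.sum_zero (-1) (neg_ne_zero.2 one_ne_zero)
        simpa using this
      rw [h4, mul_zero, zero_sub, Finset.sum_ite_eq' Finset.univ (0 : ZMod T.l) fun _ => (T.l : R),
        if_pos (Finset.mem_univ _)]
    rw [h2]
    have : C.il ^ 2 * -(T.l : R) = -(C.il * (C.il * T.l)) := by ring
    rw [this, hil, mul_one]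

/-- statement (1) -/
lemma one (j k : ZMod p) (s : T.K) : ff C j k s = kap C (j + k) s := by
  by_cases hj : j = 0
  · subst hj
    rw [ff_zero_left, zero_add]
  by_cases hk : k = 0
  · subst hk
    rw [ff_zero_right, add_zero]
  have h0 := ff_at_zero C j k hj hk
  by_cases hjk : j + k = 0
  · rw [if_pos hjk] at h0
    rw [hjk, kap_zero]
    split_ifs with hs
    · rw [hs, h0]
    · -- `f s = f s ψ(2 w(s, y))`
      have hl2 : (2 : ZMod T.l) ≠ 0 := by
        have h2 : ((2 : ℕ) : ZMod T.l) ≠ 0 := by
          rw [Ne, ZMod.natCast_eq_zero_iff]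
          intro hd
          exact T.ne2 ((Nat.prime_dvd_prime_iff_eq T.prime Nat.prime_two).1 hd)
        exact_mod_cast h2
      have h1 : ∀ y, ff C j k s = ff C j k s * C.ψ (2 * T.w s y) := by
        intro y
        have h := star' C j k s y
        rw [hjk, T.t_zero, add_sub_cancel_right, w_swap T s y] at h
        calc ff C j k s = ff C j k s * (C.ψ (T.w s y) * C.ψ (-T.w s y)) := by
              rw [psi_neg, mul_one]
          _ = (ff C j k s * C.ψ (-T.w s y)) * C.ψ (T.w s y) := by ring
          _ = ff C j k s * C.ψ (T.w s y) * C.ψ (T.w s y) := by rw [h]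
          _ = ff C j k s * C.ψ (2 * T.w s y) := by
              rw [mul_assoc, ← AddChar.map_add_eq_mul, two_mul]
      obtain ⟨y, hy⟩ := T.nondeg s hs
      have h2 : ∀ z : ZMod T.l, ff C j k s = ff C j k s * C.ψ (2 * T.w s y * z) := by
        intro z
        have h3 := h1 (z.val • y)
        have h4 : T.w s (z.val • y) = z * T.w s y := by
          rw [map_nsmul, nsmul_eq_mul, ZMod.natCast_zmod_val]
        rw [h4] at h3
        rw [show 2 * T.w s y * z = 2 * (z * T.w s y) by ring]
        exact h3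
      have h5 : ∑ _z : ZMod T.l, ff C j k s = 0 := by
        rw [Finset.sum_congr rfl fun z _ => h2 z, ← Finset.mul_sum,
          C.sum_zero (2 * T.w s y) (mul_ne_zero hl2 hy), mul_zero]
      rw [Finset.sum_const, Finset.card_univ, ZMod.card, nsmul_eq_mul] at h5
      calc ff C j k s = (C.il * T.l) * ff C j k s := by rw [C.il_mul, one_mul]
        _ = C.il * (T.l * ff C j k s) := by ring
        _ = 0 := by rw [h5, mul_zero]
  · rw [if_neg hjk] at h0
    obtain ⟨y, hy⟩ := (phi_bij T (j + k) hjk).2 s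
    have hy' : T.t (j + k) y - y = s := hy
    have h := star' C j k s y
    have e1 : s + y - T.t (j + k) y = 0 := by rw [← hy']; abel
    have e2 : T.w s y = T.w (T.t (j + k) y) y := by
      rw [← hy', map_sub, AddMonoidHom.sub_apply, T.alt, sub_zero]
    rw [e1, map_zero, AddChar.map_zero_eq_one, mul_one, h0, e2] at h
    rw [← hy', kap_phi C (j + k) hjk, hy']
    calc ff C j k s = ff C j k s * (C.ψ (T.w (T.t (j + k) y) y) *
          C.ψ (-T.w (T.t (j + k) y) y)) := by rw [psi_neg, mul_one]
      _ = (ff C j k s * C.ψ (T.w (T.t (j + k) y) y)) * C.ψ (-T.w (T.t (j + k) y) y) := by ring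
      _ = _ := by rw [← h]

end

theorem t : Pool.Agent.Helper47.EP.S_KAP := fun _ _ _ _ _ C =>
  ⟨fun j k s => one C j k s, fun j s y => two C j s y, fun j k y => three C j k y,
    fun j hj => four C j hj⟩

end Pool.Agent.Helper39.EP.KAP
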